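import Pool.Agent.Helper22_LLG.Stmt
import Pool.Agent.Helper10_LAG.Uniq

/-!
Squad LLG, module ZON
-/

set_option autoImplicit false

namespace Pool.Agent.LLG.H90

open SimpleGraph Pool.Agent.LAG

lemma gap {V : Type} (G : SimpleGraph V) (X : Set V) (hG : Big G 4000)
    (hX : ∀ x ∈ X, ∀ y ∈ X, x ≠ y → ¬ near G 1990 x y)
    (z : ℕ → V) (n : ℕ) (hz : IsP G z n) (s t : ℕ) (hst : s ≤ t) (ht : t ≤ n)
    (h1 : ∃ x ∈ X, near G 92 (z s) x) (h2 : ∃ x ∈ X, near G 92 (z t) x)
    (h3 : t ≤ s + 1806) : t ≤ s + 184 := by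
  classical
  obtain ⟨x, hxX, hx⟩ := h1
  obtain ⟨y, hyX, hy⟩ := h2
  have hP : IsP G (fun i => z (s + i)) (t - s) := by
    refine ⟨fun i hi => hz.1 (s + i) (by omega), fun i j hi hj h => ?_⟩
    have := hz.2 _ _ (by omega) (by omega) h
    omega
  obtain ⟨p, hp, hpl, -⟩ := H10.exists_path G _ _ hP
  have e0 : (fun i => z (s + i)) 0 = z s := by simp
  have e1 : (fun i => z (s + i)) (t - s) = z t := by
    show z (s + (t - s)) = z t
    congr 1; omega
  by_cases hxy : x = y
  · subst hxy
    have hx' : near G 92 ((fun i => z (s + i)) 0) x := by rw [e0]; exact hx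
    have hy' : near G 92 ((fun i => z (s + i)) (t - s)) x := by rw [e1]; exact hy
    obtain ⟨q, hq⟩ := H10.near_trans hx' (H10.near_symm hy')
    have h4 := q.length_bypass_le_length
    have h5 := uniq V G _ hG _ _ p q.bypass hp q.bypass_isPath (by omega)
    have h6 := congrArg Walk.length h5
    omega
  · exfalso
    refine hX x hxX y hyX hxy ?_
    have hx' : near G 92 ((fun i => z (s + i)) 0) x := by rw [e0]; exact hx
    have hy' : near G 92 ((fun i => z (s + i)) (t - s)) y := by rw [e1]; exact hy
    have h4 : near G (92 + (t - s) + 92) x y :=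
      H10.near_trans (H10.near_trans (H10.near_symm hx') ⟨p, hpl.le⟩) hy'
    exact H10.near_mono (by omega) h4

theorem zon : ZonStmt := by
  classical
  intro V G X hG hX z n hz
  set P : ℕ → Prop := fun t => ∃ x ∈ X, near G 92 (z t) x with hP
  have hsub : {t : ℕ | t ≤ n ∧ ∃ x ∈ X, near G 92 (z t) x} ⊆
      (((Finset.range (n / 1807 + 1)).biUnion (fun j =>
        (Finset.range (n + 1)).filter (fun t => P t ∧ t / 1807 = j)) : Finset ℕ) : Set ℕ) := by
    rintro t ⟨ht, hx⟩
    rw [Finset.mem_coe, Finset.mem_biUnion]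
    refine ⟨t / 1807, ?_, ?_⟩
    · rw [Finset.mem_range]
      have := Nat.div_le_div_right (c := 1807) ht
      omega
    · rw [Finset.mem_filter, Finset.mem_range]
      exact ⟨by omega, hx, rfl⟩
  have h1 := Set.ncard_le_ncard hsub (Finset.finite_toSet _)
  rw [Set.ncard_coe_finset] at h1
  have h2 := Finset.card_biUnion_le_card_mul (Finset.range (n / 1807 + 1)) (fun j =>
        (Finset.range (n + 1)).filter (fun t => P t ∧ t / 1807 = j)) 185 (by
    intro j _
    rcases Finset.eq_empty_or_nonempty
      ((Finset.range (n + 1)).filter (fun t => P t ∧ t / 1807 = j)) with h | h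
    · rw [h]; simp
    · set W := (Finset.range (n + 1)).filter (fun t => P t ∧ t / 1807 = j) with hW
      have hm := W.min'_mem h
      set m := W.min' h with hmdef
      have hsub2 : W ⊆ Finset.Icc m (m + 184) := by
        intro t ht
        have hle : m ≤ t := W.min'_le t ht
        rw [hW, Finset.mem_filter, Finset.mem_range] at ht hm
        rw [Finset.mem_Icc]
        refine ⟨hle, gap G X hG hX z n hz m t hle (by omega) hm.2.1 ht.2.1 ?_⟩
        have a1 := ht.2.2
        have a2 := hm.2.2
        omega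
      have h3 := Finset.card_le_card hsub2
      rw [Nat.card_Icc] at h3
      omega)
  rw [Finset.card_range] at h2
  have h4 : 1807 * (n / 1807) ≤ n := Nat.mul_div_le n 1807
  omega

end Pool.Agent.LLG.H90
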